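import Mathlib
import Pool.Agent.U37.LC.Stm3

set_option autoImplicit false

open MeasureTheory Filter Topology Complex
open scoped ComplexConjugate InnerProductSpace BoundedContinuousFunction

namespace Pool.Agent.U114.LC

open Pool.Agent.U37.LC

theorem ee_norm (X Y : ℝ → ℝ) (p η s : ℝ) : ‖ee X Y p η s‖ = 1 := by
  unfold ee
  have h : (2 * Real.pi * I * (p * X s + η * Y s) : ℂ) =
      ((2 * Real.pi * (p * X s + η * Y s) : ℝ) : ℂ) * I := by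
    push_cast; ring
  rw [h, Complex.norm_exp_ofReal_mul_I]

theorem ee_cont {L : ℝ} {X Y : ℝ → ℝ} (h : Coord L X Y) (p η : ℝ) :
    Continuous (ee X Y p η) := by
  have h1 := h.contX
  have h2 := h.contY
  unfold ee
  fun_prop

theorem cf_bound {L : ℝ} {X Y : ℝ → ℝ} (h : Coord L X Y) : ∃ M : ℝ, 0 ≤ M ∧
    ∀ (p η : ℝ) (b : XX L), ‖cf L X Y p η b‖ ≤ M * ‖b‖ := by
  set μ : Measure ℝ := (volume : Measure ℝ).restrict (Set.Ioc (0 : ℝ) L) with hμ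
  have : IsFiniteMeasure μ := by
    rw [hμ]; infer_instance
  refine ⟨(measureUnivNNReal μ : ℝ) ^ (2 : ENNReal).toReal⁻¹ * 1, by positivity, ?_⟩
  intro p η b
  have hm : MemLp (ee X Y p η) 2 μ := by
    refine MemLp.of_bound ((ee_cont h p η).aestronglyMeasurable) 1
      (Eventually.of_forall fun s => ?_)
    rw [ee_norm]
  have h1 : cf L X Y p η b = ⟪hm.toLp _, b⟫_ℂ := by
    rw [inner_L2]
    unfold cf
    refine integral_congr_ae ?_
    filter_upwards [MemLp.coeFn_toLp hm] with s hs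
    rw [hs]
  rw [h1]
  refine (norm_inner_le_norm _ _).trans ?_
  refine mul_le_mul_of_nonneg_right ?_ (norm_nonneg _)
  refine Lp.norm_le_of_ae_bound zero_le_one ?_
  filter_upwards [MemLp.coeFn_toLp hm] with s hs
  rw [hs, ee_norm]

theorem rho_pos (n : ℤ) (η : ℝ) : 0 < rho n η := by
  unfold rho; positivity

theorem rho_meas : Measurable fun q : ℤ × ℝ => rho q.1 q.2 := by
  unfold rho
  fun_prop

theorem key {L : ℝ} {X Y : ℝ → ℝ} {M : ℝ} (hM : 0 ≤ M)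
    (hb : ∀ (p η : ℝ) (b : XX L), ‖cf L X Y p η b‖ ≤ M * ‖b‖)
    (D : XX L →L[ℂ] Lp ℂ 2 nu) (hD : IsD L X Y D) (ψ : ℤ × ℝ →ᵇ ℂ) (r : ℝ) (hr : 0 ≤ r)
    (hψ : ∫⁻ q : ℤ × ℝ, ENNReal.ofReal (rho q.1 q.2 ^ (-(3 / 4) : ℝ) * ‖ψ q‖ ^ 2) ∂nu ≤
      ENNReal.ofReal (r ^ 2)) (a : XX L) (w : Lp ℂ 2 nu) :
    ‖⟪D a, mulB nu ψ w⟫_ℂ‖ ≤ M * ‖a‖ * (r * ‖w‖) := by
  rw [mulB_inner]
  have hc : 0 ≤ M * ‖a‖ := mul_nonneg hM (norm_nonneg _)
  -- the two functions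
  set F : ℤ × ℝ → ENNReal := fun q => ENNReal.ofReal (rho q.1 q.2 ^ (-(3 / 8) : ℝ) * ‖ψ q‖) with hF
  set G : ℤ × ℝ → ENNReal := fun q => ‖w q‖ₑ with hG
  have hFm : AEMeasurable F nu := by
    refine (Measurable.ennreal_ofReal ?_).aemeasurable
    refine (rho_meas.pow_const _).mul ?_
    exact (ψ.continuous.norm).measurable
  have hGm : AEMeasurable G nu := (Lp.aestronglyMeasurable w).enorm
  have hF2 : (∫⁻ q, F q ^ (2 : ℝ) ∂nu) ^ (1 / (2 : ℝ)) ≤ ENNReal.ofReal r := by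
    have e1 : ∫⁻ q, F q ^ (2 : ℝ) ∂nu =
        ∫⁻ q : ℤ × ℝ, ENNReal.ofReal (rho q.1 q.2 ^ (-(3 / 4) : ℝ) * ‖ψ q‖ ^ 2) ∂nu := by
      refine lintegral_congr fun q => ?_
      rw [hF]
      simp only
      have hp : 0 ≤ rho q.1 q.2 ^ (-(3 / 8) : ℝ) * ‖ψ q‖ :=
        mul_nonneg (Real.rpow_nonneg (rho_pos _ _).le _) (norm_nonneg _)
      rw [ENNReal.ofReal_rpow_of_nonneg hp (by norm_num)]
      congr 1
      rw [Real.rpow_two, mul_pow]
      congr 1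
      rw [← Real.rpow_natCast, ← Real.rpow_mul (rho_pos _ _).le]
      norm_num
    rw [e1]
    refine (ENNReal.rpow_le_rpow hψ (by norm_num)).trans ?_
    rw [ENNReal.ofReal_rpow_of_nonneg (by positivity) (by norm_num)]
    refine ENNReal.ofReal_le_ofReal ?_
    rw [← Real.sqrt_eq_rpow, Real.sqrt_sq hr]
  have hG2 : (∫⁻ q, G q ^ (2 : ℝ) ∂nu) ^ (1 / (2 : ℝ)) = ENNReal.ofReal ‖w‖ := by
    rw [Lp.norm_def, ENNReal.ofReal_toReal (Lp.eLpNorm_ne_top w),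
      eLpNorm_eq_lintegral_rpow_enorm_toReal (by norm_num) (by norm_num)]
    simp only [ENNReal.toReal_ofNat, hG]
  have hle : ‖∫ q, conj (D a q) * (ψ q * w q) ∂nu‖ₑ ≤
      ENNReal.ofReal (M * ‖a‖) * (ENNReal.ofReal r * ENNReal.ofReal ‖w‖) := by
    refine (enorm_integral_le_lintegral_enorm _).trans ?_
    calc ∫⁻ q, ‖conj (D a q) * (ψ q * w q)‖ₑ ∂nu
        ≤ ∫⁻ q, ENNReal.ofReal (M * ‖a‖) * ((F * G) q) ∂nu := by
          refine lintegral_mono_ae ?_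
          filter_upwards [hD a] with q hq
          rw [hq, Pi.mul_apply, hF, hG]
          simp only
          rw [← ofReal_norm, ← ofReal_norm,
            ← ENNReal.ofReal_mul (mul_nonneg (Real.rpow_nonneg (rho_pos _ _).le _) (norm_nonneg _)),
            ← ENNReal.ofReal_mul hc]
          refine ENNReal.ofReal_le_ofReal ?_
          have h0 : 0 ≤ rho q.1 q.2 ^ (-(3 / 8) : ℝ) := Real.rpow_nonneg (rho_pos _ _).le _
          have h1 := hb q.1 q.2 a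
          simp only [map_mul, norm_mul, RCLike.norm_conj]
          rw [Complex.norm_real, Real.norm_of_nonneg h0]
          have h2 : 0 ≤ ‖ψ q‖ * ‖w q‖ := by positivity
          calc rho q.1 q.2 ^ (-(3 / 8) : ℝ) * ‖cf L X Y q.1 q.2 a‖ * (‖ψ q‖ * ‖w q‖)
              ≤ rho q.1 q.2 ^ (-(3 / 8) : ℝ) * (M * ‖a‖) * (‖ψ q‖ * ‖w q‖) := by gcongr
            _ = M * ‖a‖ * (rho q.1 q.2 ^ (-(3 / 8) : ℝ) * ‖ψ q‖ * ‖w q‖) := by ring
      _ = ENNReal.ofReal (M * ‖a‖) * ∫⁻ q, (F * G) q ∂nu := by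
          rw [lintegral_const_mul'' _ (hFm.mul hGm)]
      _ ≤ ENNReal.ofReal (M * ‖a‖) * (ENNReal.ofReal r * ENNReal.ofReal ‖w‖) := by
          gcongr
          refine (ENNReal.lintegral_mul_le_Lp_mul_Lq nu Real.HolderConjugate.two_two hFm hGm).trans ?_
          rw [hG2]
          gcongr
  rw [← ofReal_norm, ← ENNReal.ofReal_mul hr, ← ENNReal.ofReal_mul hc] at hle
  exact (ENNReal.ofReal_le_ofReal_iff (by positivity)).1 hle

theorem jobHS : JobHS := by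
  intro L X Y hC D hD
  obtain ⟨M, hM, hb⟩ := cf_bound hC
  refine ⟨M * ‖D‖ + 1, by positivity, ?_⟩
  intro ψ r hr hψ
  refine ContinuousLinearMap.opNorm_le_bound _ (by positivity) fun b => ?_
  set v := ((ContinuousLinearMap.adjoint D).comp ((mulB nu ψ).comp D)) b with hv
  have h1 : ‖v‖ * ‖v‖ = ‖⟪D v, mulB nu ψ (D b)⟫_ℂ‖ := by
    have h2 : ⟪D v, mulB nu ψ (D b)⟫_ℂ = ⟪v, v⟫_ℂ := by
      rw [← ContinuousLinearMap.adjoint_inner_right]
      rfl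
    rw [h2, inner_self_eq_norm_sq_to_K, norm_pow, RCLike.norm_ofReal, abs_of_nonneg (norm_nonneg _)]
    ring
  have h3 := key hM hb D hD ψ r hr hψ v (D b)
  rw [← h1] at h3
  rcases eq_or_lt_of_le (norm_nonneg v) with h0 | h0
  · rw [← h0]; positivity
  · have h4 : ‖D b‖ ≤ ‖D‖ * ‖b‖ := D.le_opNorm b
    have h5 : ‖v‖ * ‖v‖ ≤ ‖v‖ * ((M * ‖D‖ + 1) * r * ‖b‖) := by
      refine h3.trans ?_
      have h6 : M * ‖v‖ * (r * ‖D b‖) ≤ M * ‖v‖ * (r * (‖D‖ * ‖b‖)) := by gcongr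
      refine h6.trans ?_
      have h7 : 0 ≤ ‖v‖ * (r * ‖b‖) := by positivity
      nlinarith
    exact le_of_mul_le_mul_left h5 h0

end Pool.Agent.U114.LC
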