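import Mathlib
import Pool.Agent.U37.LC.Stm3

set_option autoImplicit false

open MeasureTheory Filter Topology Complex
open scoped ComplexConjugate InnerProductSpace BoundedContinuousFunction

namespace Pool.Agent.U114.LC

open Pool.Agent.U37.LC

theorem om_nonneg (θ : ℝ) (q : ℝ × ℝ) : 0 ≤ om θ q := by
  unfold om; positivity

theorem sub_ne {z : ℂ} (hz : z.im ≠ 0) (x : ℝ) : (x : ℂ) - z ≠ 0 := by
  intro h
  have := congrArg Complex.im h
  simp at this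
  exact hz this

theorem adj_zero {L α c₁ : ℝ} {W : YY L →L[ℂ] HH} {S : HH →L[ℂ] HH} (hP : Pen S W α c₁) (f : HH)
    (hf : ∀ z₀ : ℂ, z₀.im ≠ 0 → ∀ y : YY L, ⟪S (AI S W α z₀ (W y)), f⟫_ℂ = 0)
    (z : ℂ) (hz : z.im ≠ 0) : ContinuousLinearMap.adjoint W (AI S W α z (S f)) = 0 := by
  have hz' : (conj z).im ≠ 0 := by simpa using hz
  refine ext_inner_left ℂ fun y => ?_
  rw [inner_zero_right, ContinuousLinearMap.adjoint_inner_right]
  have h1 := hf (conj z) hz' y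
  rw [hP.symm, AI_adj hP (conj z) (AA_unit hP _ hz')
    (by rw [Complex.conj_conj]; exact AA_unit hP z hz), Complex.conj_conj] at h1
  exact h1

theorem rr_eq {L θ α c₁ : ℝ} {W : YY L →L[ℂ] HH} {S : HH →L[ℂ] HH}
    (hS : IsMul (fun q => (((1 + om θ q) ^ (-(1 / 2) : ℝ) : ℝ) : ℂ)) S) (hP : Pen S W α c₁) (f : HH)
    (z : ℂ) (hz : z.im ≠ 0) (hW : ContinuousLinearMap.adjoint W (AI S W α z (S f)) = 0) :
    (RR S W α z f : ℝ × ℝ → ℂ) =ᵐ[volume] fun q => f q / ((om θ q : ℂ) - z) := by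
  obtain ⟨u, hu⟩ : ∃ u, u = AI S W α z (S f) := ⟨_, rfl⟩
  have h1 : AA S W α z u = S f := by rw [hu]; exact AI_right z (AA_unit hP z hz) _
  rw [← hu] at hW
  rw [AA_apply, hW, map_zero, smul_zero, sub_zero] at h1
  have h2 : RR S W α z f = S u := by rw [RR_apply, hu]
  rw [h2]
  have h3 : ((u - (z + 1) • S (S u) : HH) : ℝ × ℝ → ℂ) =ᵐ[volume] (S f : HH) := by rw [h1]
  filter_upwards [hS u, hS (S u), hS f, h3, Lp.coeFn_sub u ((z + 1) • S (S u)),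
    Lp.coeFn_smul (z + 1) (S (S u))] with q e1 e2 e3 e4 e5 e6
  rw [e5, Pi.sub_apply, e6, Pi.smul_apply, e2, e1, e3, smul_eq_mul] at e4
  rw [e1]
  have hp : 0 < 1 + om θ q := by have := om_nonneg θ q; linarith
  obtain ⟨σ, hσ⟩ : ∃ σ : ℂ, σ = (((1 + om θ q) ^ (-(1 / 2) : ℝ) : ℝ) : ℂ) := ⟨_, rfl⟩
  have hss : σ * σ * (1 + om θ q) = 1 := by
    rw [hσ]
    have h5 : (1 + om θ q) ^ (-(1 / 2) : ℝ) * (1 + om θ q) ^ (-(1 / 2) : ℝ) * (1 + om θ q) = 1 := by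
      rw [← Real.rpow_add hp]
      norm_num
      rw [Real.rpow_neg_one]
      exact inv_mul_cancel₀ hp.ne'
    exact_mod_cast h5
  rw [← hσ] at e4 ⊢
  have hne := sub_ne hz (om θ q)
  rw [eq_div_iff hne]
  have e7 : σ * (1 + om θ q) * (u q - (z + 1) * (σ * (σ * u q))) = σ * (1 + om θ q) * (σ * f q) := by
    rw [e4]
  have e8 : σ * (1 + om θ q) * (σ * f q) = f q := by
    calc σ * (1 + om θ q) * (σ * f q) = (σ * σ * (1 + om θ q)) * f q := by ring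
      _ = f q := by rw [hss, one_mul]
  have e9 : σ * (1 + om θ q) * (u q - (z + 1) * (σ * (σ * u q))) =
      σ * u q * ((1 + om θ q) - (z + 1) * (σ * σ * (1 + om θ q))) := by ring
  rw [e8, e9, hss] at e7
  rw [← e7]
  ring

theorem norm_eq {θ : ℝ} (f g : HH) (t ε : ℝ) (hε : 0 < ε)
    (h : (g : ℝ × ℝ → ℂ) =ᵐ[volume] fun q => f q / ((om θ q : ℂ) - ((t : ℂ) + ε * I))) :
    ε * ‖g‖ ^ 2 = ∫ q : ℝ × ℝ, ε / ((om θ q - t) ^ 2 + ε ^ 2) * ‖f q‖ ^ 2 := by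
  have h1 := inner_L2 (volume : Measure (ℝ × ℝ)) g g
  rw [inner_self_eq_norm_sq_to_K] at h1
  have h2 : ∫ q : ℝ × ℝ, conj (g q) * g q =
      ((∫ q : ℝ × ℝ, 1 / ((om θ q - t) ^ 2 + ε ^ 2) * ‖f q‖ ^ 2 : ℝ) : ℂ) := by
    rw [← integral_complex_ofReal]
    refine integral_congr_ae ?_
    filter_upwards [h] with q hq
    rw [hq, Complex.conj_mul', norm_div]
    have h3 : ‖(om θ q : ℂ) - ((t : ℂ) + ε * I)‖ ^ 2 = (om θ q - t) ^ 2 + ε ^ 2 := by
      rw [← Complex.normSq_eq_norm_sq, Complex.normSq_apply]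
      simp
      ring
    have h4 : (‖f q‖ / ‖(om θ q : ℂ) - ((t : ℂ) + ε * I)‖) ^ 2 =
        1 / ((om θ q - t) ^ 2 + ε ^ 2) * ‖f q‖ ^ 2 := by
      rw [div_pow, h3]
      ring
    rw [← h4]
    push_cast
    rfl
  rw [h2] at h1
  have h5 : ‖g‖ ^ 2 = ∫ q : ℝ × ℝ, 1 / ((om θ q - t) ^ 2 + ε ^ 2) * ‖f q‖ ^ 2 := by
    apply Complex.ofReal_injective
    rw [← h1]
    push_cast
    rfl
  rw [h5, ← integral_const_mul]
  refine integral_congr_ae (Eventually.of_forall fun q => ?_)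
  simp only
  ring

theorem jobOrth (hF : JobFree) : JobOrth := by
  intro L θ α c₁ hθ _ W S hS hP f hf E hE hE0 δ hδ
  obtain ⟨V, hV, hEV, e, he, h⟩ := hF θ hθ f (Lp.memLp f) E hE hE0 δ hδ
  refine ⟨V, hV, hEV, e, he, fun ε hε hε2 => ?_⟩
  refine le_trans (le_of_eq ?_) (h ε hε hε2)
  unfold DD
  refine lintegral_congr fun t => ?_
  congr 1
  have him : ((t : ℂ) + ε * I).im ≠ 0 := by simpa using hε.ne'
  exact norm_eq f _ t ε hε (rr_eq hS hP f _ him (adj_zero hP f hf _ him))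

end Pool.Agent.U114.LC
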